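import Mathlib

/-!
# Lower bound for the discriminant: the tamely ramified part
-/

set_option autoImplicit false

namespace Pool.Agent.Lib.MP_1a91b9_ntQD

open NumberField

/-- The product of the powers of the ideals `J_p` divides the different. -/
theorem prod_dvd_different {K N : Type} [Field K] [NumberField K] [Field N] [NumberField N]
    [Algebra K N] (s : Finset (Ideal (𝓞 K))) (e : Ideal (𝓞 K) → ℕ)
    (J : Ideal (𝓞 K) → Ideal (𝓞 N)) (hs : ∀ p ∈ s, p.IsMaximal ∧ p ≠ ⊥)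
    (hJ : ∀ p ∈ s, J p ^ e p = p.map (algebraMap (𝓞 K) (𝓞 N))) :
    ∏ p ∈ s, J p ^ (e p - 1) ∣ differentIdeal (𝓞 K) (𝓞 N) := by
  refine Finset.prod_dvd_of_coprime ?_ ?_
  · intro p hp q hq hpq
    have h1 : IsCoprime (J p ^ e p) (J q ^ e q) := by
      rw [hJ p hp, hJ q hq, Ideal.isCoprime_iff_sup_eq, ← Ideal.map_sup,
        (hs p hp).1.coprime_of_ne (hs q hq).1 hpq, Ideal.map_top]
    exact IsCoprime.of_isCoprime_of_dvd_left
      (IsCoprime.of_isCoprime_of_dvd_right h1 (pow_dvd_pow _ (Nat.sub_le _ _)))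
      (pow_dvd_pow _ (Nat.sub_le _ _))
  · intro p hp
    have := (hs p hp).1
    exact pow_sub_one_dvd_differentIdeal (𝓞 K) (J p) (e p) (hs p hp).2 (hJ p hp).dvd

/-- **The tame part of the discriminant**: `p = J_p ^ (e_p)` in `N` for the `p` of the set `s`,
`e_p m_p = [N : K]`. -/
theorem disc_ge_id {K N : Type} [Field K] [NumberField K] [Field N] [NumberField N]
    [Algebra K N] (s : Finset (Ideal (𝓞 K))) (e m : Ideal (𝓞 K) → ℕ)
    (hs : ∀ p ∈ s, p.IsMaximal ∧ p ≠ ⊥)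
    (hm : ∀ p ∈ s, m p * e p = Module.finrank K N)
    (hJ : ∀ p ∈ s, ∃ J : Ideal (𝓞 N), J ^ e p = p.map (algebraMap (𝓞 K) (𝓞 N))) :
    ∏ p ∈ s, Ideal.absNorm p ^ (m p * (e p - 1)) ≤ (discr N).natAbs := by
  classical
  choose! J hJ using hJ
  have h1 := prod_dvd_different s e J hs hJ
  have h2 := map_dvd Ideal.absNorm h1
  have h0 : Module.finrank K N ≠ 0 := Module.finrank_pos.ne'
  rw [map_prod] at h2
  have h3 : ∀ p ∈ s, Ideal.absNorm (J p ^ (e p - 1)) = Ideal.absNorm p ^ (m p * (e p - 1)) := by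
    intro p hp
    have h4 := congrArg Ideal.absNorm (hJ p hp)
    have he : e p ≠ 0 := by
      intro h
      rw [← hm p hp, h, mul_zero] at h0
      exact h0 rfl
    rw [map_pow, Ideal.absNorm_algebraMap, ← IsFractionRing.finrank_eq (𝓞 K) K (𝓞 N) N,
      ← hm p hp, pow_mul] at h4
    rw [map_pow, Nat.pow_left_injective he h4, pow_mul]
  rw [Finset.prod_congr rfl h3] at h2
  have h5 := natAbs_discr_eq_absNorm_differentIdeal_mul_natAbs_discr_pow K (𝓞 K) N (𝓞 N)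
  refine Nat.le_of_dvd (Int.natAbs_pos.2 (discr_ne_zero N)) (h2.trans ?_)
  rw [h5]
  exact Dvd.intro _ rfl

/-- A prime with odd exponent in a fourth power is a fourth power. -/
theorem root_ideal_odd {K N : Type} [Field K] [NumberField K] [Field N] [NumberField N]
    [Algebra K N] {p C : Ideal (𝓞 K)} (hp : p.IsMaximal) (hp0 : p ≠ ⊥) (hC : ¬ C ≤ p) {k : ℕ}
    (hk : Odd k) {I : Ideal (𝓞 N)} (hI : I ^ 4 = (p ^ k * C).map (algebraMap (𝓞 K) (𝓞 N))) :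
    ∃ J : Ideal (𝓞 N), J ^ 4 = p.map (algebraMap (𝓞 K) (𝓞 N)) := by
  classical
  set P := p.map (algebraMap (𝓞 K) (𝓞 N)) with hP
  have hP0 : P ≠ ⊥ := by
    rw [hP, Ne, Ideal.map_eq_bot_iff_of_injective (FaithfulSMul.algebraMap_injective (𝓞 K) (𝓞 N))]
    exact hp0
  rw [Ideal.map_mul, Ideal.map_pow, ← hP] at hI
  have hco : IsCoprime (P ^ k) (C.map (algebraMap (𝓞 K) (𝓞 N))) := by
    refine IsCoprime.pow_left ?_
    rw [Ideal.isCoprime_iff_sup_eq, hP, ← Ideal.map_sup]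
    have : p ⊔ C = ⊤ := by
      refine hp.1.2 _ (lt_of_le_of_ne le_sup_left fun h => hC ?_)
      rw [h]
      exact le_sup_right
    rw [this, Ideal.map_top]
  let _ : GCDMonoid (Ideal (𝓞 N)) := UniqueFactorizationMonoid.toGCDMonoid _
  obtain ⟨D, hD⟩ := exists_eq_pow_of_mul_eq_pow_of_coprime hco hI.symm
  -- `k k' = 4 l + 1`
  obtain ⟨k', l, hl⟩ : ∃ k' l : ℕ, k * k' = 4 * l + 1 := by
    obtain ⟨t, rfl⟩ := hk
    rcases Nat.even_or_odd t with ⟨s, rfl⟩ | ⟨s, rfl⟩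
    · exact ⟨1, s, by ring⟩
    · exact ⟨3, 3 * s + 2, by ring⟩
  have h1 : P ^ (4 * l) * P = (D ^ k') ^ 4 := by
    rw [← pow_succ, ← hl, pow_mul, hD, ← pow_mul, ← pow_mul, mul_comm]
  have h2 : P ^ l ∣ D ^ k' := by
    rw [← UniqueFactorizationMonoid.pow_dvd_pow_iff_dvd (n := 4) (by norm_num), ← h1, ← pow_mul,
      mul_comm l 4]
    exact Dvd.intro _ rfl
  obtain ⟨J, hJ⟩ := h2
  refine ⟨J, ?_⟩
  rw [hJ, mul_pow, ← pow_mul, mul_comm l 4] at h1
  exact (mul_left_cancel₀ (pow_ne_zero _ hP0) h1).symm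

/-- A prime with exponent `2 (mod 4)` in a fourth power is a square. -/
theorem root_ideal_two {K N : Type} [Field K] [NumberField K] [Field N] [NumberField N]
    [Algebra K N] {p C : Ideal (𝓞 K)} (hp : p.IsMaximal) (hp0 : p ≠ ⊥) (hC : ¬ C ≤ p) {k : ℕ}
    (hk : k % 4 = 2) {I : Ideal (𝓞 N)} (hI : I ^ 4 = (p ^ k * C).map (algebraMap (𝓞 K) (𝓞 N))) :
    ∃ J : Ideal (𝓞 N), J ^ 2 = p.map (algebraMap (𝓞 K) (𝓞 N)) := by
  classical
  set P := p.map (algebraMap (𝓞 K) (𝓞 N)) with hP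
  have hP0 : P ≠ ⊥ := by
    rw [hP, Ne, Ideal.map_eq_bot_iff_of_injective (FaithfulSMul.algebraMap_injective (𝓞 K) (𝓞 N))]
    exact hp0
  rw [Ideal.map_mul, Ideal.map_pow, ← hP] at hI
  have hco : IsCoprime (P ^ k) (C.map (algebraMap (𝓞 K) (𝓞 N))) := by
    refine IsCoprime.pow_left ?_
    rw [Ideal.isCoprime_iff_sup_eq, hP, ← Ideal.map_sup]
    have : p ⊔ C = ⊤ := by
      refine hp.1.2 _ (lt_of_le_of_ne le_sup_left fun h => hC ?_)
      rw [h]
      exact le_sup_right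
    rw [this, Ideal.map_top]
  let _ : GCDMonoid (Ideal (𝓞 N)) := UniqueFactorizationMonoid.toGCDMonoid _
  obtain ⟨D, hD⟩ := exists_eq_pow_of_mul_eq_pow_of_coprime hco hI.symm
  obtain ⟨l, rfl⟩ : ∃ l : ℕ, k = 4 * l + 2 := ⟨k / 4, by omega⟩
  have h2 : P ^ l ∣ D := by
    rw [← UniqueFactorizationMonoid.pow_dvd_pow_iff_dvd (n := 4) (by norm_num), ← hD, ← pow_mul,
      mul_comm l 4, pow_add]
    exact Dvd.intro _ rfl
  obtain ⟨J, hJ⟩ := h2
  refine ⟨J, ?_⟩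
  rw [hJ, mul_pow, ← pow_mul, mul_comm l 4, pow_add] at hD
  have h3 := mul_left_cancel₀ (pow_ne_zero _ hP0) hD
  have h4 : P ^ 2 = (J ^ 2) ^ 2 := by rw [h3, ← pow_mul]
  refine le_antisymm ?_ ?_
  · rw [← Ideal.dvd_iff_le, ← UniqueFactorizationMonoid.pow_dvd_pow_iff_dvd (n := 2) (by norm_num), h4]
  · rw [← Ideal.dvd_iff_le, ← UniqueFactorizationMonoid.pow_dvd_pow_iff_dvd (n := 2) (by norm_num), h4]

end Pool.Agent.Lib.MP_1a91b9_ntQD
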