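import Pool.Agent.Lib.MP_1a91b9_ntQD.BLa

/-!
# Lower bound for the discriminant of an extension by fourth roots
-/

set_option autoImplicit false

namespace Pool.Agent.Lib.MP_1a91b9_ntQD

open NumberField UniqueFactorizationMonoid

theorem absNorm_sqf {K : Type} [Field K] [NumberField K] [IsPrincipalIdealRing (𝓞 K)]
    [DecidableEq (Ideal (𝓞 K))] {A : 𝓞 K}
    (hA : Squarefree A) :
    (Algebra.norm ℤ A).natAbs = ∏ p ∈ (normalizedFactors (Ideal.span {A})).toFinset, Ideal.absNorm p := by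
  classical
  have hA0 : Ideal.span {A} ≠ ⊥ := by
    rw [Ne, Ideal.span_singleton_eq_bot]
    exact hA.ne_zero
  have h1 : Squarefree (Ideal.span {A}) := by
    intro J hJ
    obtain ⟨x, rfl⟩ := (IsPrincipalIdealRing.principal J).principal
    change Ideal.span {x} * Ideal.span {x} ∣ _ at hJ
    rw [Ideal.span_singleton_mul_span_singleton, Ideal.span_singleton_dvd_span_singleton_iff_dvd] at hJ
    have h2 := hA x hJ
    rw [Ideal.isUnit_iff]
    exact Ideal.span_singleton_eq_top.2 h2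
  have h3 := (squarefree_iff_nodup_normalizedFactors hA0).1 h1
  have h4 : (normalizedFactors (Ideal.span {A})).prod = Ideal.span {A} :=
    Ideal.prod_normalizedFactors_eq_self hA0
  rw [← Ideal.absNorm_span_singleton, ← h4, map_multiset_prod, h4, Finset.prod,
    Multiset.toFinset_val, h3.dedup]

theorem mem_fac {K : Type} [Field K] [NumberField K] [IsPrincipalIdealRing (𝓞 K)]
    {A : 𝓞 K} {p : Ideal (𝓞 K)} (hp : p ∈ normalizedFactors (Ideal.span {A})) :
    p.IsMaximal ∧ p ≠ ⊥ ∧ ∃ P : 𝓞 K, Prime P ∧ P ∣ A ∧ p = Ideal.span {P} := by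
  have h1 := prime_of_normalized_factor p hp
  have h2 := dvd_of_mem_normalizedFactors hp
  have h3 : p ≠ ⊥ := h1.ne_zero
  have h4 : p.IsPrime := Ideal.isPrime_of_prime h1
  refine ⟨h4.isMaximal h3, h3, ?_⟩
  obtain ⟨x, rfl⟩ := (IsPrincipalIdealRing.principal p).principal
  change Ideal.span {x} ≠ ⊥ at h3
  rw [Ne, Ideal.span_singleton_eq_bot] at h3
  refine ⟨x, (Ideal.span_singleton_prime h3).1 h4, ?_, rfl⟩
  rwa [← Ideal.span_singleton_dvd_span_singleton_iff_dvd]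

/-- **Lower bound for the discriminant**: the primes of `A` have an odd exponent in a fourth power
of `N`, those of `B` an exponent `2 (mod 4)`. -/
theorem disc_lower {K N : Type} [Field K] [NumberField K] [Field N] [NumberField N]
    [Algebra K N] [IsPrincipalIdealRing (𝓞 K)] {n : ℕ} (hn : Module.finrank K N = 4 * n)
    {A B : 𝓞 K} (hA : Squarefree A) (hB : Squarefree B)
    (h4 : ∀ P, Prime P → P ∣ A → ∃ (w c : 𝓞 K) (y : 𝓞 N) (k : ℕ),
      y ^ 4 = algebraMap (𝓞 K) (𝓞 N) w ∧ Odd k ∧ w = P ^ k * c ∧ ¬ P ∣ c)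
    (h2 : ∀ P, Prime P → P ∣ B → ¬ P ∣ A ∧ ∃ (w c : 𝓞 K) (y : 𝓞 N) (k : ℕ),
      y ^ 4 = algebraMap (𝓞 K) (𝓞 N) w ∧ k % 4 = 2 ∧ w = P ^ k * c ∧ ¬ P ∣ c) :
    (Algebra.norm ℤ A).natAbs ^ (3 * n) * (Algebra.norm ℤ B).natAbs ^ (2 * n) ≤ (discr N).natAbs := by
  classical
  set sA := (normalizedFactors (Ideal.span {A})).toFinset with hsA
  set sB := (normalizedFactors (Ideal.span {B})).toFinset with hsB
  have hmA : ∀ p ∈ sA, p.IsMaximal ∧ p ≠ ⊥ ∧ ∃ P : 𝓞 K, Prime P ∧ P ∣ A ∧ p = Ideal.span {P} :=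
    fun p hp => mem_fac (Multiset.mem_toFinset.1 hp)
  have hmB : ∀ p ∈ sB, p.IsMaximal ∧ p ≠ ⊥ ∧ ∃ P : 𝓞 K, Prime P ∧ P ∣ B ∧ p = Ideal.span {P} :=
    fun p hp => mem_fac (Multiset.mem_toFinset.1 hp)
  have hdis : Disjoint sA sB := by
    rw [Finset.disjoint_left]
    intro p hpA hpB
    obtain ⟨-, -, P, hP, hPA, rfl⟩ := hmA p hpA
    obtain ⟨-, -, Q, hQ, hQB, hPQ⟩ := hmB _ hpB
    refine (h2 Q hQ hQB).1 ?_
    rw [Ideal.span_singleton_eq_span_singleton] at hPQ
    exact hPQ.symm.dvd.trans hPA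
  have hI : ∀ (P w c : 𝓞 K) (y : 𝓞 N) (k : ℕ), y ^ 4 = algebraMap (𝓞 K) (𝓞 N) w →
      w = P ^ k * c → (Ideal.span {y}) ^ 4 =
        ((Ideal.span {P}) ^ k * Ideal.span {c}).map (algebraMap (𝓞 K) (𝓞 N)) := by
    intro P w c y k hy hw
    rw [Ideal.span_singleton_pow, hy, Ideal.span_singleton_pow,
      Ideal.span_singleton_mul_span_singleton, ← hw, Ideal.map_span, Set.image_singleton]
  have hc : ∀ P c : 𝓞 K, ¬ P ∣ c → ¬ Ideal.span {c} ≤ Ideal.span {P} := by
    intro P c h h'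
    rw [Ideal.span_singleton_le_span_singleton] at h'
    exact h h'
  have key := disc_ge_id (K := K) (N := N) (sA ∪ sB) (fun p => if p ∈ sA then 4 else 2)
    (fun p => if p ∈ sA then n else 2 * n) ?_ ?_ ?_
  · refine le_trans (le_of_eq ?_) key
    rw [Finset.prod_union hdis, absNorm_sqf hA, absNorm_sqf hB, ← Finset.prod_pow, ← Finset.prod_pow]
    congr 1
    · refine Finset.prod_congr rfl fun p hp => ?_
      rw [if_pos hp, if_pos hp, mul_comm]
    · refine Finset.prod_congr rfl fun p hp => ?_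
      have : p ∉ sA := fun h => Finset.disjoint_left.1 hdis h hp
      rw [if_neg this, if_neg this, show 2 * n * (2 - 1) = 2 * n by omega]
  · intro p hp
    rcases Finset.mem_union.1 hp with h | h
    · exact ⟨(hmA p h).1, (hmA p h).2.1⟩
    · exact ⟨(hmB p h).1, (hmB p h).2.1⟩
  · intro p hp
    split_ifs
    · rw [hn, mul_comm]
    · rw [hn]; ring
  · intro p hp
    by_cases h : p ∈ sA
    · simp only [h, if_true]
      obtain ⟨h5, h6, P, hP, hPA, rfl⟩ := hmA p h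
      obtain ⟨w, c, y, k, hy, hk, hw, hPc⟩ := h4 P hP hPA
      exact root_ideal_odd h5 h6 (hc P c hPc) hk (hI P w c y k hy hw)
    · simp only [h, if_false]
      have h' : p ∈ sB := (Finset.mem_union.1 hp).resolve_left h
      obtain ⟨h5, h6, P, hP, hPB, rfl⟩ := hmB p h'
      obtain ⟨-, w, c, y, k, hy, hk, hw, hPc⟩ := h2 P hP hPB
      exact root_ideal_two h5 h6 (hc P c hPc) hk (hI P w c y k hy hw)

end Pool.Agent.Lib.MP_1a91b9_ntQD
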