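import Pool.Agent.Lib.MP_1a91b9_ntDF.BU9
import Pool.Agent.Lib.MP_1a91b9_ntDF.BU10

/-!
# Upper bound for the discriminant of an extension by the square roots of `δ_i b_i`
-/

set_option autoImplicit false

noncomputable section

namespace Pool.Agent.Lib.MP_1a91b9_ntQD

open NumberField
open Pool.Agent.Lib.MP_1a91b9_ntDF (Kx mon GD PF Bb exists_GD prod_rad mon_neg mon_mul mon_pow mon_ne_zero)

/-- The discriminant is at most that of a basis of integers. -/
theorem discr_le {N : Type} [Field N] [NumberField N] {κ : Type} [Fintype κ] [DecidableEq κ]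
    (b : Module.Basis κ ℚ N) (hb : ∀ i, IsIntegral ℤ (b i)) :
    |(NumberField.discr N : ℚ)| ≤ |Algebra.discr ℚ b| := by
  classical
  obtain ⟨e⟩ : Nonempty (Module.Free.ChooseBasisIndex ℤ (𝓞 N) ≃ κ) := by
    refine ⟨Fintype.equivOfCardEq ?_⟩
    rw [← Module.finrank_eq_card_chooseBasisIndex, RingOfIntegers.rank, Module.finrank_eq_card_basis b]
  let B : Module.Basis κ ℤ (𝓞 N) := (RingOfIntegers.basis N).reindex e
  have hB : NumberField.discr N = Algebra.discr ℤ B := (NumberField.discr_eq_discr N B).symm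
  let B₀ : κ → N := fun j => (B j : N)
  have h1 : (NumberField.discr N : ℚ) = Algebra.discr ℚ B₀ := by
    have h2 := Algebra.discr_localizationLocalization ℤ (nonZeroDivisors ℤ) N B (Rₘ := ℚ)
    have h3 : (B.localizationLocalization ℚ (nonZeroDivisors ℤ) N : κ → N) = B₀ := by
      funext j
      rw [Module.Basis.localizationLocalization_apply]
    rw [h3] at h2
    rw [h2, hB]
    rfl
  let c : κ → 𝓞 N := fun j => ⟨b j, hb j⟩
  let P : Matrix κ κ ℤ := fun i j => B.repr (c j) i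
  have h4 : (b : κ → N) = Matrix.vecMul B₀ ((P.map (Int.cast : ℤ → ℚ)).map (algebraMap ℚ N)) := by
    funext j
    rw [Matrix.vecMul, dotProduct]
    have h5 : b j = ((c j : 𝓞 N) : N) := rfl
    rw [h5, ← B.sum_repr (c j)]
    refine (map_sum (algebraMap (𝓞 N) N) _ _).trans ?_
    refine Finset.sum_congr rfl fun i _ => ?_
    rw [Matrix.map_apply, Matrix.map_apply, zsmul_eq_mul, map_mul, map_intCast, mul_comm, map_intCast]
  have h5 : (P.map (Int.cast : ℤ → ℚ)).det = (P.det : ℚ) := by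
    have h6 := (Int.castRingHom ℚ).map_det P
    exact h6.symm
  have h6 : Algebra.discr ℚ (b : κ → N) = (P.det : ℚ) ^ 2 * (NumberField.discr N : ℚ) := by
    rw [h4, Algebra.discr_of_matrix_vecMul, h5, ← h1]
  have h7 : Algebra.discr ℚ (b : κ → N) ≠ 0 := Algebra.discr_not_zero_of_basis ℚ b
  have h8 : P.det ≠ 0 := by
    intro h
    rw [h6, h] at h7
    simp at h7
  have h9 : (1 : ℚ) ≤ (P.det : ℚ) ^ 2 := by
    have : (1 : ℤ) ≤ P.det ^ 2 := by
      have := sq_nonneg P.det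
      have h10 : P.det ^ 2 ≠ 0 := pow_ne_zero _ h8
      omega
    exact_mod_cast this
  rw [h6, abs_mul, abs_of_nonneg (sq_nonneg (P.det : ℚ))]
  exact le_mul_of_one_le_left (abs_nonneg _) h9

theorem norm_mul_map {K M : Type} [Field K] [NumberField K] [Field M] [NumberField M] [Algebra K M]
    (c : K) : Algebra.norm ℚ (algebraMap K M c) = Algebra.norm ℚ c ^ Module.finrank K M := by
  rw [← Algebra.norm_norm (S := K), Algebra.norm_algebraMap, map_pow]

section

variable {K M : Type} [Field K] [NumberField K] [Field M] [NumberField M] [Algebra K M]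

theorem tr0 {n : ℕ} {N : Type} [Field N] [NumberField N] [Algebra M N] [FiniteDimensional M N]
    {d : Fin n → M} {x : Fin n → N} (h : Kx 2 d x) (g : (Fin n → ZMod 2) → M)
    {χ ψ : Fin n → ZMod 2} (hne : ψ ≠ -χ) :
    Algebra.trace M N ((mon χ x / algebraMap M N (g χ)) * (mon ψ x / algebraMap M N (g ψ))) = 0 := by
  obtain ⟨c, hc⟩ := h.mul χ ψ
  have hs : χ + ψ ≠ 0 := fun h0 => hne (eq_neg_of_add_eq_zero_right h0)
  have e : (mon χ x / algebraMap M N (g χ)) * (mon ψ x / algebraMap M N (g ψ))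
      = (c * ((g χ) * (g ψ))⁻¹) • mon (χ + ψ) x := by
    rw [div_mul_div_comm, hc, Algebra.smul_def, map_mul, map_inv₀, map_mul, div_eq_mul_inv]
    ring
  rw [e, map_smul, h.trace_mon hs, smul_zero]

theorem tr1 {n : ℕ} {N : Type} [Field N] [NumberField N] [Algebra M N] [FiniteDimensional M N]
    {d : Fin n → M} {x : Fin n → N} (h : Kx 2 d x) (g : (Fin n → ZMod 2) → M) (χ : Fin n → ZMod 2) :
    Algebra.trace M N ((mon χ x / algebraMap M N (g χ)) * (mon (-χ) x / algebraMap M N (g (-χ)))) =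
      2 ^ n * (∏ i, if χ i = 0 then (1 : M) else d i) / (g χ * g (-χ)) := by
  have e : (mon χ x / algebraMap M N (g χ)) * (mon (-χ) x / algebraMap M N (g (-χ))) = algebraMap M N
      ((∏ i, if χ i = 0 then (1 : M) else d i) / (g χ * g (-χ))) := by
    have e1 : (∏ i, if χ i = 0 then (1 : N) else x i ^ 2) =
        algebraMap M N (∏ i, if χ i = 0 then (1 : M) else d i) := by
      rw [map_prod]
      refine Finset.prod_congr rfl fun i _ => ?_
      split_ifs
      · rw [map_one]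
      · exact h.cu i
    rw [div_mul_div_comm, mon_neg, e1, map_div₀, map_mul]
  rw [e, Algebra.trace_algebraMap, h.deg, nsmul_eq_mul, Nat.cast_pow, Nat.cast_ofNat, mul_div_assoc]

end

theorem mon_mul_distrib {R : Type} [CommMonoid R] {p n : ℕ} (χ : Fin n → ZMod p) (a b : Fin n → R) :
    mon χ (fun i => a i * b i) = mon χ a * mon χ b := by
  unfold mon
  rw [← Finset.prod_mul_distrib]
  exact Finset.prod_congr rfl fun i _ => mul_pow _ _ _

theorem mon_alg {R S : Type} [CommSemiring R] [CommSemiring S] {p n : ℕ} (f : R →+* S) (χ : Fin n → ZMod p)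
    (a : Fin n → R) : f (mon χ a) = mon χ (fun i => f (a i)) := by
  unfold mon
  rw [map_prod]
  exact Finset.prod_congr rfl fun i _ => map_pow _ _ _

/-- **Upper bound for the discriminant.** -/
theorem disc_upper (K M : Type) [Field K] [NumberField K] [IsPrincipalIdealRing (𝓞 K)] [Field M]
    [NumberField M] [Algebra K M] (n : ℕ) (δ : Fin n → 𝓞 M) :
    ∃ C : ℝ, 0 < C ∧ ∀ b : Fin n → 𝓞 K, (∀ i, Squarefree (b i)) → ∀ L : 𝓞 K, Squarefree L →
      (∀ P, Prime P → (P ∣ L ↔ ∃ i, P ∣ b i)) → ∀ (N : Type) [Field N] [NumberField N] [Algebra M N]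
      (x : Fin n → N), Kx 2 (fun i => (δ i : M) * algebraMap K M (b i)) x →
      |(discr N : ℝ)| ≤ C * |(Algebra.norm ℤ L : ℝ)| ^ (2 ^ (n - 1) * Module.finrank K M) := by
  classical
  obtain ⟨e, he⟩ : ∃ e : M, e = ∏ χ : Fin n → ZMod 2, (2 ^ n * ∏ i, if χ i = 0 then (1 : M) else (δ i : M)) :=
    ⟨_, rfl⟩
  refine ⟨(|(discr M : ℚ)| ^ 2 ^ n * |Algebra.norm ℚ e| : ℚ) + 1, by positivity, ?_⟩
  intro b hb L hL hP N _ _ _ x h
  have hfd : FiniteDimensional M N := Module.finite_of_finrank_pos (by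
    rw [h.deg]
    exact pow_pos (by norm_num) _)
  have hb' : ∀ i, PF 2 (b i) := by
    intro i P hP' hdvd
    refine hP'.not_isUnit (hb i P ?_)
    rwa [← pow_two]
  have : Fact (Nat.Prime 2) := ⟨Nat.prime_two⟩
  obtain ⟨g, hg⟩ := exists_GD (p := 2) hb'
  obtain ⟨u, hu⟩ := prod_rad hb' hg hL hP
  obtain ⟨gM, hgM⟩ : ∃ gM : (Fin n → ZMod 2) → M, ∀ χ, gM χ = algebraMap K M (g χ) := ⟨_, fun _ => rfl⟩
  have hgK : ∀ χ, ((g χ : 𝓞 K) : K) ≠ 0 := fun χ h0 => hg.ne χ (RingOfIntegers.ext h0)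
  have hgM0 : ∀ χ, gM χ ≠ 0 := by
    intro χ
    rw [hgM, Ne, map_eq_zero]
    exact hgK χ
  obtain ⟨θ, hθ⟩ : ∃ θ : (Fin n → ZMod 2) → N, ∀ χ, θ χ = mon χ x / algebraMap M N (gM χ) := ⟨_, fun _ => rfl⟩
  -- integrality
  have hint : ∀ χ, IsIntegral ℤ (θ χ) := by
    intro χ
    obtain ⟨y, -, hy⟩ := hg.ex χ
    have h1 : mon χ x ^ 2 = algebraMap M N (mon χ fun i => (δ i : M) * algebraMap K M (b i)) := by
      rw [← mon_pow, mon_alg]
      unfold mon
      exact Finset.prod_congr rfl fun i _ => congrArg (· ^ (χ i).val) (h.cu i)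
    have h2 : (mon χ fun i => algebraMap K M (b i)) = gM χ ^ 2 * algebraMap K M y := by
      rw [hgM, ← map_pow, ← map_mul, ← mon_alg (algebraMap K M) χ fun i => ((b i : 𝓞 K) : K),
        ← mon_alg (algebraMap (𝓞 K) K) χ b, hy, map_mul, map_pow]
    have h3 : θ χ ^ 2 = algebraMap M N ((mon χ fun i => (δ i : M)) * algebraMap K M y) := by
      rw [hθ, div_pow, h1, mon_mul_distrib, h2, ← map_pow, ← map_div₀]
      congr 1
      have := hgM0 χ
      field_simp
    refine IsIntegral.of_pow (n := 2) (by norm_num) ?_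
    rw [h3]
    have h4 : IsIntegral ℤ (mon χ fun i => (δ i : M)) := by
      rw [← mon_alg (algebraMap (𝓞 M) M) χ δ]
      exact (mon χ δ).isIntegral_coe
    exact (h4.mul (y.isIntegral_coe.algebraMap)).algebraMap
  -- the basis
  let ω : Module.Basis (Module.Free.ChooseBasisIndex ℤ (𝓞 M)) ℤ (𝓞 M) := RingOfIntegers.basis M
  let bθ : Module.Basis (Fin n → ZMod 2) M N :=
    h.basis.isUnitSMul (w := fun χ => (gM χ)⁻¹) (fun χ => (IsUnit.mk0 _ (inv_ne_zero (hgM0 χ))))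
  have hbθ : ∀ χ, bθ χ = θ χ := by
    intro χ
    show h.basis.isUnitSMul _ χ = _
    rw [Module.Basis.isUnitSMul_apply, h.basis_apply, Algebra.smul_def, map_inv₀, hθ, div_eq_mul_inv, mul_comm]
  let bq : Module.Basis (Module.Free.ChooseBasisIndex ℤ (𝓞 M) × (Fin n → ZMod 2)) ℚ N :=
    (integralBasis M).smulTower bθ
  have hbq : ∀ q, bq q = algebraMap M N (ω q.1) * θ q.2 := by
    intro q
    show ((integralBasis M).smulTower bθ) q = _
    rw [Module.Basis.smulTower_apply, hbθ, integralBasis_apply, Algebra.smul_def]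
  have h1 := discr_le bq (fun q => by
    rw [hbq]
    exact ((ω q.1).isIntegral_coe.algebraMap).mul (hint q.2))
  have hbfun : (bq : Module.Free.ChooseBasisIndex ℤ (𝓞 M) × (Fin n → ZMod 2) → N) =
      fun i => algebraMap M N (ω i.1) * θ i.2 := funext hbq
  obtain ⟨t, ht⟩ : ∃ t : (Fin n → ZMod 2) → M, ∀ χ, t χ = 2 ^ n * (∏ i, if χ i = 0 then (1 : M) else
      (δ i : M) * algebraMap K M (b i)) / (gM χ * gM (-χ)) := ⟨_, fun _ => rfl⟩
  have h2 := Bb ω θ t (fun χ ψ hne => by rw [hθ, hθ]; exact tr0 h gM hne)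
    (fun χ => by rw [hθ, hθ, ht]; exact tr1 h gM χ)
  rw [hbfun, h2, Fintype.card_fun, ZMod.card, Fintype.card_fin, ← Finset.abs_prod, ← map_prod] at h1
  -- the product
  have h3 : ∏ χ, t χ = e * algebraMap K M ((L : K) ^ 2 ^ (n - 1) * ((u⁻¹ : (𝓞 K)ˣ) : 𝓞 K)) := by
    have hG : ∏ χ : Fin n → ZMod 2, (gM χ * gM (-χ)) ≠ 0 :=
      Finset.prod_ne_zero_iff.2 fun χ _ => mul_ne_zero (hgM0 _) (hgM0 _)
    have h4 : (∏ χ : Fin n → ZMod 2, ∏ i, if χ i = 0 then (1 : 𝓞 K) else b i) =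
        L ^ 2 ^ (n - 1) * ((u⁻¹ : (𝓞 K)ˣ) : 𝓞 K) * ∏ χ, (g χ * g (-χ)) := by
      have h5 : (2 - 1) * 2 ^ (n - 1) = 2 ^ (n - 1) := by omega
      rw [h5] at hu
      calc _ = (∏ χ : Fin n → ZMod 2, ∏ i, if χ i = 0 then (1 : 𝓞 K) else b i) * u * ((u⁻¹ : (𝓞 K)ˣ) : 𝓞 K) := by
            rw [mul_assoc, Units.mul_inv, mul_one]
        _ = _ := by rw [hu]; ring
    have h6 : (∏ χ : Fin n → ZMod 2, ∏ i, if χ i = 0 then (1 : M) else algebraMap K M (b i)) =
        algebraMap K M ((L : K) ^ 2 ^ (n - 1) * ((u⁻¹ : (𝓞 K)ˣ) : 𝓞 K)) * ∏ χ, (gM χ * gM (-χ)) := by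
      have h5 := congrArg (fun z : 𝓞 K => algebraMap K M (algebraMap (𝓞 K) K z)) h4
      simp only [map_mul, map_pow, map_prod] at h5
      have h7 : (∏ χ : Fin n → ZMod 2, ∏ i, if χ i = 0 then (1 : M) else algebraMap K M (b i)) =
          ∏ χ : Fin n → ZMod 2, ∏ i, algebraMap K M (algebraMap (𝓞 K) K (if χ i = 0 then (1 : 𝓞 K) else b i)) := by
        refine Finset.prod_congr rfl fun χ _ => Finset.prod_congr rfl fun i _ => ?_
        split_ifs
        · rw [map_one, map_one]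
        · rfl
      rw [h7, h5, map_mul, map_pow]
      congr 1
      exact Finset.prod_congr rfl fun χ _ => by rw [hgM, hgM]
    have h7 : ∀ χ, t χ = (2 ^ n * ∏ i, if χ i = 0 then (1 : M) else (δ i : M)) *
        (∏ i, if χ i = 0 then (1 : M) else algebraMap K M (b i)) / (gM χ * gM (-χ)) := by
      intro χ
      rw [ht, mul_assoc, ← Finset.prod_mul_distrib]
      congr 2
      refine Finset.prod_congr rfl fun i _ => ?_
      split_ifs
      · rw [mul_one]
      · rfl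
    rw [Finset.prod_congr rfl fun χ _ => h7 χ, Finset.prod_div_distrib, Finset.prod_mul_distrib, h6, he,
      ← mul_assoc, mul_div_cancel_right₀ _ hG]
  have h4 : |Algebra.norm ℚ (∏ χ, t χ)| = |Algebra.norm ℚ e| *
      |(Algebra.norm ℤ L : ℚ)| ^ (2 ^ (n - 1) * Module.finrank K M) := by
    have hu1 : |(Algebra.norm ℤ ((u⁻¹ : (𝓞 K)ˣ) : 𝓞 K) : ℚ)| = 1 := by
      have h1 : IsUnit (Algebra.norm ℤ ((u⁻¹ : (𝓞 K)ˣ) : 𝓞 K)) := (u⁻¹).isUnit.map (Algebra.norm ℤ)
      rw [Int.isUnit_iff_abs_eq] at h1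
      exact_mod_cast h1
    rw [h3, map_mul, abs_mul, norm_mul_map, map_mul, map_pow, ← Algebra.coe_norm_int L,
      ← Algebra.coe_norm_int ((u⁻¹ : (𝓞 K)ˣ) : 𝓞 K), abs_pow, abs_mul, hu1, mul_one, abs_pow, ← pow_mul]
  rw [h4] at h1
  have h5 : |(discr N : ℝ)| ≤ ((|(discr M : ℚ)| ^ 2 ^ n * |Algebra.norm ℚ e| : ℚ) : ℝ) *
      |(Algebra.norm ℤ L : ℝ)| ^ (2 ^ (n - 1) * Module.finrank K M) := by
    have h6 : ((|(discr N : ℚ)| : ℚ) : ℝ) ≤ ((|(discr M : ℚ)| ^ 2 ^ n * (|Algebra.norm ℚ e| *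
      |(Algebra.norm ℤ L : ℚ)| ^ (2 ^ (n - 1) * Module.finrank K M)) : ℚ) : ℝ) := by exact_mod_cast h1
    rw [← mul_assoc] at h6
    push_cast at h6 ⊢
    exact h6
  refine h5.trans ?_
  refine mul_le_mul_of_nonneg_right ?_ (by positivity)
  linarith

end Pool.Agent.Lib.MP_1a91b9_ntQD
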