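import Pool.Agent.Lib.MP_1a91b9_ntQD.D0

/-!
# MP_1a91b9_nt (the cyclic quartic extensions by the discriminant): counting
-/

set_option autoImplicit false

namespace Pool.Agent.Lib.MP_1a91b9_ntQD

open NumberField

/-- The coordinates of the integers of the field. -/
private theorem C1_key {K : Type} [Field K] [NumberField K] (hK : Module.finrank ℚ K = 2) {i : K} (hi : i ^ 2 = -1)
    (x : 𝓞 K) : ∃ s t : ℤ, 2 * (x : K) = (s : K) + (t : K) * i ∧ 4 * Algebra.norm ℤ x = s ^ 2 + t ^ 2 := by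
  classical
  have hli : LinearIndependent ℚ ![(1 : K), i] := by
    rw [LinearIndependent.pair_iff]
    intro a b h
    rw [Algebra.smul_def, Algebra.smul_def, mul_one] at h
    have h1 : algebraMap ℚ K (a ^ 2 + b ^ 2) = 0 := by
      rw [map_add, map_pow, map_pow]
      linear_combination (algebraMap ℚ K a - algebraMap ℚ K b * i) * h + (algebraMap ℚ K b) ^ 2 * hi
    have h2 : a ^ 2 + b ^ 2 = 0 := (map_eq_zero _).1 h1
    have ha := sq_nonneg a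
    have hb := sq_nonneg b
    exact ⟨(pow_eq_zero_iff two_ne_zero).1 (by linarith), (pow_eq_zero_iff two_ne_zero).1 (by linarith)⟩
  obtain ⟨bs, hb0, hb1⟩ : ∃ bs : Module.Basis (Fin 2) ℚ K, bs 0 = 1 ∧ bs 1 = i := by
    refine ⟨basisOfLinearIndependentOfCardEqFinrank hli (by rw [Fintype.card_fin, hK]), ?_, ?_⟩
    · rw [coe_basisOfLinearIndependentOfCardEqFinrank]
      rfl
    · rw [coe_basisOfLinearIndependentOfCardEqFinrank]
      rfl
  have hr0 : ∀ a c : ℚ, bs.repr (a • (1 : K) + c • i) 0 = a := by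
    intro a c
    rw [← hb0, ← hb1, map_add, map_smul, map_smul, bs.repr_self, bs.repr_self]
    simp
  have hr1 : ∀ a c : ℚ, bs.repr (a • (1 : K) + c • i) 1 = c := by
    intro a c
    rw [← hb0, ← hb1, map_add, map_smul, map_smul, bs.repr_self, bs.repr_self]
    simp
  have hm1 : ∀ a c : ℚ, (a • (1 : K) + c • i) * bs 0 = a • (1 : K) + c • i := by
    intro a c
    rw [hb0, mul_one]
  have hm2 : ∀ a c : ℚ, (a • (1 : K) + c • i) * bs 1 = (-c) • (1 : K) + a • i := by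
    intro a c
    rw [hb1]
    simp only [Algebra.smul_def, map_neg]
    linear_combination algebraMap ℚ K c * hi
  have hn : ∀ a c : ℚ, Algebra.norm ℚ (a • (1 : K) + c • i) = a ^ 2 + c ^ 2 := by
    intro a c
    rw [Algebra.norm_eq_matrix_det bs, Matrix.det_fin_two, Algebra.leftMulMatrix_eq_repr_mul,
      Algebra.leftMulMatrix_eq_repr_mul, Algebra.leftMulMatrix_eq_repr_mul, Algebra.leftMulMatrix_eq_repr_mul,
      hm1, hm2, hr0, hr1, hr0, hr1]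
    ring
  have htr : ∀ a c : ℚ, Algebra.trace ℚ K (a • (1 : K) + c • i) = 2 * a := by
    intro a c
    rw [Algebra.trace_eq_matrix_trace bs, Matrix.trace_fin_two, Algebra.leftMulMatrix_eq_repr_mul,
      Algebra.leftMulMatrix_eq_repr_mul, hm1, hm2, hr0, hr1]
    ring
  obtain ⟨a, c, hx⟩ : ∃ a c : ℚ, (x : K) = a • (1 : K) + c • i := by
    refine ⟨bs.repr x 0, bs.repr x 1, ?_⟩
    have h1 := bs.sum_repr (x : K)
    rw [Fin.sum_univ_two, hb0, hb1] at h1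
    exact h1.symm
  have hint : IsIntegral ℤ i := by
    refine IsIntegral.of_pow (n := 2) two_pos ?_
    rw [hi]
    exact isIntegral_one.neg
  obtain ⟨j, hj⟩ : ∃ j : 𝓞 K, (j : K) = i := ⟨⟨i, hint⟩, rfl⟩
  have h1 : ((Algebra.trace ℤ (𝓞 K) x : ℤ) : ℚ) = 2 * a := by
    rw [Algebra.coe_trace_int, hx, htr]
  have h2 : ((Algebra.trace ℤ (𝓞 K) (-(j * x)) : ℤ) : ℚ) = 2 * c := by
    rw [Algebra.coe_trace_int]
    have h3 : ((-(j * x) : 𝓞 K) : K) = c • (1 : K) + (-a) • i := by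
      have h30 : ((-(j * x) : 𝓞 K) : K) = -((j : K) * (x : K)) := rfl
      rw [h30, hj, hx]
      simp only [Algebra.smul_def, map_neg]
      linear_combination (-algebraMap ℚ K c) * hi
    rw [h3, htr]
  have h3 : ((Algebra.norm ℤ x : ℤ) : ℚ) = a ^ 2 + c ^ 2 := by
    rw [Algebra.coe_norm_int, hx, hn]
  refine ⟨Algebra.trace ℤ (𝓞 K) x, Algebra.trace ℤ (𝓞 K) (-(j * x)), ?_, ?_⟩
  · have h4 : ((Algebra.trace ℤ (𝓞 K) x : ℤ) : K) = algebraMap ℚ K (2 * a) := by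
      rw [← h1, map_intCast]
    have h5 : ((Algebra.trace ℤ (𝓞 K) (-(j * x)) : ℤ) : K) = algebraMap ℚ K (2 * c) := by
      rw [← h2, map_intCast]
    rw [h4, h5, hx, Algebra.smul_def, Algebra.smul_def, map_mul, map_mul, map_ofNat]
    ring
  · have h6 : ((4 * Algebra.norm ℤ x : ℤ) : ℚ) =
        (((Algebra.trace ℤ (𝓞 K) x) ^ 2 + (Algebra.trace ℤ (𝓞 K) (-(j * x))) ^ 2 : ℤ) : ℚ) := by
      push_cast
      rw [h3, h1, h2]
      ring
    exact_mod_cast h6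

/-- **C1** (medium). The number of the elements of bounded norm. Proof: `K = ℚ(i)`, every element of `𝓞 K` is `s + t i`
with integers `s`, `t` (or, with a constant: `2 x = s + t i` with integers `s`, `t`: the trace of `x` and of `i x`),
the norm is `s² + t²` (of `2x`: `4 N(x)`), so `|s|, |t| ≤ 2 √Z`, at most `(4 √Z + 1)²` elements, and none for `Z < 1`. -/
theorem card_le {K : Type} [Field K] [NumberField K] (hK : Module.finrank ℚ K = 2) {i : K} (hi : i ^ 2 = -1) :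
    (∀ Z : ℝ, {x : 𝓞 K | x ≠ 0 ∧ nr x ≤ Z}.Finite) ∧
    ∃ C : ℝ, 0 < C ∧ ∀ Z : ℝ, 0 < Z → (Nat.card {x : 𝓞 K // x ≠ 0 ∧ nr x ≤ Z} : ℝ) ≤ C * Z := by
  classical
  choose s t h1 h2 using C1_key hK hi
  have hinj : ∀ x y : 𝓞 K, s x = s y → t x = t y → x = y := by
    intro x y hs ht
    have h3 : (2 : K) * (x : K) = 2 * (y : K) := by
      rw [h1, h1, hs, ht]
    exact NumberField.RingOfIntegers.ext (mul_left_cancel₀ two_ne_zero h3)
  have h4 : ∀ x : 𝓞 K, 4 * nr x = (s x : ℝ) ^ 2 + (t x : ℝ) ^ 2 := by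
    intro x
    have h5 : 0 ≤ Algebra.norm ℤ x := by
      have h6 := sq_nonneg (s x)
      have h7 := sq_nonneg (t x)
      have h8 := h2 x
      linarith
    unfold nr
    rw [abs_of_nonneg h5]
    exact_mod_cast h2 x
  have h5 : ∀ x : 𝓞 K, x ≠ 0 → 1 ≤ nr x := by
    intro x hx
    have h6 : Algebra.norm ℤ x ≠ 0 := by
      intro h0
      have h7 := h2 x
      rw [h0, mul_zero] at h7
      have h8 := sq_nonneg (s x)
      have h9 := sq_nonneg (t x)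
      have hs : s x = 0 := (pow_eq_zero_iff two_ne_zero).1 (by linarith)
      have ht : t x = 0 := (pow_eq_zero_iff two_ne_zero).1 (by linarith)
      apply hx
      have h10 := h1 x
      rw [hs, ht, Int.cast_zero, zero_mul, add_zero] at h10
      have h11 : (x : K) = 0 := (mul_eq_zero.1 h10).resolve_left two_ne_zero
      exact NumberField.RingOfIntegers.ext (h11.trans (map_zero _).symm)
    unfold nr
    exact_mod_cast Int.one_le_abs h6
  -- the map to the box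
  have h6 : ∀ Z : ℝ, ∀ x : 𝓞 K, nr x ≤ Z →
      s x ∈ Finset.Icc (-(⌊Real.sqrt (4 * Z)⌋₊ : ℤ)) ⌊Real.sqrt (4 * Z)⌋₊ ∧
      t x ∈ Finset.Icc (-(⌊Real.sqrt (4 * Z)⌋₊ : ℤ)) ⌊Real.sqrt (4 * Z)⌋₊ := by
    intro Z x hx
    have h7 := h4 x
    have h8 : ∀ u : ℤ, (u : ℝ) ^ 2 ≤ 4 * Z → u ∈ Finset.Icc (-(⌊Real.sqrt (4 * Z)⌋₊ : ℤ)) ⌊Real.sqrt (4 * Z)⌋₊ := by
      intro u hu
      have h9 := Real.abs_le_sqrt hu
      have h10 : u.natAbs ≤ ⌊Real.sqrt (4 * Z)⌋₊ := by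
        apply Nat.le_floor
        rw [Nat.cast_natAbs, Int.cast_abs]
        exact h9
      rw [Finset.mem_Icc]
      omega
    have h11 := sq_nonneg (s x : ℝ)
    have h12 := sq_nonneg (t x : ℝ)
    exact ⟨h8 _ (by linarith), h8 _ (by linarith)⟩
  have h7 : ∀ Z : ℝ, ∃ f : {x : 𝓞 K // x ≠ 0 ∧ nr x ≤ Z} →
      ((Finset.Icc (-(⌊Real.sqrt (4 * Z)⌋₊ : ℤ)) ⌊Real.sqrt (4 * Z)⌋₊ ×ˢ
        Finset.Icc (-(⌊Real.sqrt (4 * Z)⌋₊ : ℤ)) ⌊Real.sqrt (4 * Z)⌋₊ : Finset (ℤ × ℤ))), Function.Injective f := by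
    intro Z
    refine ⟨fun x => ⟨(s x.1, t x.1), Finset.mem_product.2 (h6 Z x.1 x.2.2)⟩, fun x y hxy => ?_⟩
    have h8 := congrArg (fun z => z.1) hxy
    exact Subtype.ext (hinj x.1 y.1 (congrArg Prod.fst h8) (congrArg Prod.snd h8))
  refine ⟨fun Z => ?_, 25, by norm_num, fun Z hZ => ?_⟩
  · obtain ⟨f, hf⟩ := h7 Z
    have h8 : Finite {x : 𝓞 K // x ≠ 0 ∧ nr x ≤ Z} := Finite.of_injective f hf
    exact h8
  · rcases lt_or_ge Z 1 with h8 | h8
    · have h9 : IsEmpty {x : 𝓞 K // x ≠ 0 ∧ nr x ≤ Z} :=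
        ⟨fun x => absurd (h5 x.1 x.2.1) (not_le.2 (lt_of_le_of_lt x.2.2 h8))⟩
      rw [Nat.card_of_isEmpty, Nat.cast_zero]
      linarith
    · obtain ⟨f, hf⟩ := h7 Z
      have h9 := Nat.card_le_card_of_injective f hf
      rw [Nat.card_eq_fintype_card (α := (Finset.Icc (-(⌊Real.sqrt (4 * Z)⌋₊ : ℤ)) ⌊Real.sqrt (4 * Z)⌋₊ ×ˢ
        Finset.Icc (-(⌊Real.sqrt (4 * Z)⌋₊ : ℤ)) ⌊Real.sqrt (4 * Z)⌋₊ : Finset (ℤ × ℤ))), Fintype.card_coe,
        Finset.card_product, Int.card_Icc] at h9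
      have h10 : ((⌊Real.sqrt (4 * Z)⌋₊ : ℤ) + 1 - (-(⌊Real.sqrt (4 * Z)⌋₊ : ℤ))).toNat =
          2 * ⌊Real.sqrt (4 * Z)⌋₊ + 1 := by omega
      rw [h10] at h9
      have h11 : (⌊Real.sqrt (4 * Z)⌋₊ : ℝ) ≤ Real.sqrt (4 * Z) := Nat.floor_le (Real.sqrt_nonneg _)
      have h12 : Real.sqrt (4 * Z) = 2 * Real.sqrt Z := by
        rw [Real.sqrt_mul (by norm_num), show (4 : ℝ) = 2 ^ 2 by norm_num, Real.sqrt_sq (by norm_num)]
      have h13 : 1 ≤ Real.sqrt Z := Real.one_le_sqrt.2 h8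
      have h14 : Real.sqrt Z * Real.sqrt Z = Z := Real.mul_self_sqrt hZ.le
      have h15 : ((2 * ⌊Real.sqrt (4 * Z)⌋₊ + 1 : ℕ) : ℝ) ≤ 5 * Real.sqrt Z := by
        push_cast
        rw [h12] at h11
        rw [h12]
        linarith
      calc (Nat.card {x : 𝓞 K // x ≠ 0 ∧ nr x ≤ Z} : ℝ)
          ≤ (((2 * ⌊Real.sqrt (4 * Z)⌋₊ + 1) * (2 * ⌊Real.sqrt (4 * Z)⌋₊ + 1) : ℕ) : ℝ) := by exact_mod_cast h9
        _ = ((2 * ⌊Real.sqrt (4 * Z)⌋₊ + 1 : ℕ) : ℝ) * ((2 * ⌊Real.sqrt (4 * Z)⌋₊ + 1 : ℕ) : ℝ) := Nat.cast_mul _ _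
        _ ≤ (5 * Real.sqrt Z) * (5 * Real.sqrt Z) :=
            mul_le_mul h15 h15 (Nat.cast_nonneg _) (by positivity)
        _ = 25 * (Real.sqrt Z * Real.sqrt Z) := by ring
        _ = 25 * Z := by rw [h14]

end Pool.Agent.Lib.MP_1a91b9_ntQD
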