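import Pool.Agent.Lib.MP_1a91b9_ntQD.C1

/-!
# MP_1a91b9_nt (the cyclic quartic extensions by the discriminant): the sum
-/

set_option autoImplicit false

namespace Pool.Agent.Lib.MP_1a91b9_ntQD

open NumberField

private theorem C3_sum {α : Type} (f : α → ℝ) (hf : ∀ x, 1 ≤ f x) {C : ℝ} (hC : 0 < C)
    (H : ∀ Z : ℝ, 0 < Z → ∀ s : Finset α, (∀ x ∈ s, f x ≤ Z) → (s.card : ℝ) ≤ C * Z) :
    Summable fun x => (f x ^ (3 / 2 : ℝ))⁻¹ := by
  classical
  have hw : (2 : ℝ) < (2 : ℝ) ^ (3 / 2 : ℝ) := by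
    have h : (2 : ℝ) ^ (1 : ℝ) < (2 : ℝ) ^ (3 / 2 : ℝ) :=
      Real.rpow_lt_rpow_of_exponent_lt (by norm_num) (by norm_num)
    rwa [Real.rpow_one] at h
  obtain ⟨w, hwd⟩ : ∃ w : ℝ, w = (2 : ℝ) ^ (3 / 2 : ℝ) := ⟨_, rfl⟩
  rw [← hwd] at hw
  have hw0 : 0 < w := by linarith
  have hk : ∀ x, ∃ k : ℕ, f x ≤ 2 ^ k ∧ (2 : ℝ) ^ k ≤ 2 * f x := by
    intro x
    obtain ⟨n, h1, h2⟩ := exists_nat_pow_near (hf x) (by norm_num : (1 : ℝ) < 2)
    exact ⟨n + 1, h2.le, by rw [pow_succ]; linarith⟩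
  choose k hk1 hk2 using hk
  have hterm : ∀ x, (f x ^ (3 / 2 : ℝ))⁻¹ ≤ w / w ^ k x := by
    intro x
    have h0 : 0 < f x := lt_of_lt_of_le one_pos (hf x)
    have h1 : ((2 : ℝ) ^ k x / 2) ^ (3 / 2 : ℝ) ≤ f x ^ (3 / 2 : ℝ) := by
      apply Real.rpow_le_rpow (by positivity) _ (by norm_num)
      have := hk2 x
      linarith
    have h2 : ((2 : ℝ) ^ k x / 2) ^ (3 / 2 : ℝ) = w ^ k x / w := by
      rw [Real.div_rpow (by positivity) (by norm_num), ← hwd]
      congr 1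
      rw [hwd, ← Real.rpow_natCast, ← Real.rpow_natCast, ← Real.rpow_mul (by norm_num),
        ← Real.rpow_mul (by norm_num), mul_comm]
    rw [h2] at h1
    have h3 : 0 < w ^ k x / w := by positivity
    calc (f x ^ (3 / 2 : ℝ))⁻¹ ≤ (w ^ k x / w)⁻¹ := inv_anti₀ h3 h1
      _ = w / w ^ k x := by rw [inv_div]
  have hr0 : 0 ≤ 2 / w := by positivity
  have hr1 : 2 / w < 1 := by rw [div_lt_one hw0]; exact hw
  refine summable_of_sum_le (c := C * w * (1 - 2 / w)⁻¹) (fun x => ?_) (fun s => ?_)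
  · have h0 : 0 < f x := lt_of_lt_of_le one_pos (hf x)
    show 0 ≤ (f x ^ (3 / 2 : ℝ))⁻¹
    positivity
  · have hmaps : ∀ x ∈ s, k x ∈ Finset.range (s.sup k + 1) := by
      intro x hx
      rw [Finset.mem_range]
      exact Nat.lt_succ_of_le (Finset.le_sup (f := k) hx)
    rw [← Finset.sum_fiberwise_of_maps_to hmaps]
    have hin : ∀ n ∈ Finset.range (s.sup k + 1),
        ∑ x ∈ s.filter (fun x => k x = n), (f x ^ (3 / 2 : ℝ))⁻¹ ≤ C * w * (2 / w) ^ n := by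
      intro n _
      have h1 : ∑ x ∈ s.filter (fun x => k x = n), (f x ^ (3 / 2 : ℝ))⁻¹ ≤
          ∑ x ∈ s.filter (fun x => k x = n), w / w ^ n := by
        apply Finset.sum_le_sum
        intro x hx
        have := (Finset.mem_filter.1 hx).2
        rw [← this]
        exact hterm x
      have h2 : ((s.filter (fun x => k x = n)).card : ℝ) ≤ C * 2 ^ n := by
        apply H _ (by positivity)
        intro x hx
        have := (Finset.mem_filter.1 hx).2
        rw [← this]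
        exact hk1 x
      rw [Finset.sum_const, nsmul_eq_mul] at h1
      calc _ ≤ _ := h1
        _ ≤ (C * 2 ^ n) * (w / w ^ n) := by
            apply mul_le_mul_of_nonneg_right h2 (by positivity)
        _ = C * w * (2 / w) ^ n := by rw [div_pow]; ring
    calc _ ≤ ∑ n ∈ Finset.range (s.sup k + 1), C * w * (2 / w) ^ n := Finset.sum_le_sum hin
      _ = C * w * ∑ n ∈ Finset.range (s.sup k + 1), (2 / w) ^ n := by rw [Finset.mul_sum]
      _ ≤ C * w * (1 - 2 / w)⁻¹ := by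
          apply mul_le_mul_of_nonneg_left _ (by positivity)
          rw [← tsum_geometric_of_lt_one hr0 hr1]
          exact (summable_geometric_of_lt_one hr0 hr1).sum_le_tsum _ (fun i _ => by positivity)

private theorem C3_one_le {K : Type} [Field K] [NumberField K] {x : 𝓞 K} (hx : x ≠ 0) :
    1 ≤ nr x := by
  have h : Algebra.norm ℤ x ≠ 0 := Algebra.norm_ne_zero_iff.2 hx
  have h1 : (1 : ℤ) ≤ |Algebra.norm ℤ x| := Int.one_le_abs h
  unfold nr
  exact_mod_cast h1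

/-- **C3** (medium). The sum over the elements. Proof: by `card_le` there are at most `C 2^(k+1)` elements with
`2^k ≤ nr x < 2^(k+1)`, `k ≥ 0`, and `∑ 2^(k+1) 2^(-3k/2) < ∞` (`summable_of_sum_le` for the finite sums, or
`ENNReal` sums over the fibres of `⌊log₂ nr x⌋`). -/
theorem sum_nr {K : Type} [Field K] [NumberField K] (hK : Module.finrank ℚ K = 2) {i : K} (hi : i ^ 2 = -1) :
    Summable fun x : {x : 𝓞 K // x ≠ 0} => (nr x.1 ^ (3 / 2 : ℝ))⁻¹ := by
  obtain ⟨hfin, C, hC, hcard⟩ := card_le hK hi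
  refine C3_sum (fun x : {x : 𝓞 K // x ≠ 0} => nr x.1) (fun x => C3_one_le x.2) hC ?_
  intro Z hZ s hs
  have hF : Finite {x : 𝓞 K // x ≠ 0 ∧ nr x ≤ Z} := (hfin Z).to_subtype
  let e : s → {x : 𝓞 K // x ≠ 0 ∧ nr x ≤ Z} := fun y => ⟨y.1.1, y.1.2, hs y.1 y.2⟩
  have he : Function.Injective e := by
    intro a b hab
    have h1 : (e a).1 = (e b).1 := by rw [hab]
    exact Subtype.ext (Subtype.ext h1)
  have h2 : Nat.card s ≤ Nat.card {x : 𝓞 K // x ≠ 0 ∧ nr x ≤ Z} := Nat.card_le_card_of_injective e he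
  have h3 : Nat.card s = s.card := by simp
  rw [h3] at h2
  calc (s.card : ℝ) ≤ (Nat.card {x : 𝓞 K // x ≠ 0 ∧ nr x ≤ Z} : ℝ) := by exact_mod_cast h2
    _ ≤ C * Z := hcard Z hZ

end Pool.Agent.Lib.MP_1a91b9_ntQD
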