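import Pool.Agent.Lib.MP_1a91b9_ntDF.D0

/-!
# MP_1a91b9_nt (the cyclic quartic extensions by the discriminant): definitions
-/

set_option autoImplicit false

namespace Pool.Agent.Lib.MP_1a91b9_ntQD

open NumberField
open Pool.Agent.Lib.MP_1a91b9_ntDF (NK DiscLe)

noncomputable section

/-- The field generated over `K` by the fourth roots of `d`. -/
def Q4 {K : Type} [Field K] (d : K) : IntermediateField K (AlgebraicClosure K) :=
  NK 4 (fun _ : Fin 1 => d)

/-- The cyclic extensions of `K` of degree four in the algebraic closure. -/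
def Cyc (K : Type) [Field K] : Set (IntermediateField K (AlgebraicClosure K)) :=
  {N | IsGalois K N ∧ Nonempty ((N ≃ₐ[K] N) ≃* Multiplicative (ZMod 4))}

/-- The absolute value of the norm. -/
def nr {K : Type} [Field K] [NumberField K] (x : 𝓞 K) : ℝ := ((|Algebra.norm ℤ x| : ℤ) : ℝ)

end

end Pool.Agent.Lib.MP_1a91b9_ntQD
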