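import Pool.Agent.Lib.MP_1a91b9_ntDZ.Z1

/-!
# MP_1a91b9_nt (cyclic quartic fields by the discriminant): the property `Z` over the subfields
-/

set_option autoImplicit false

namespace Pool.Agent.Lib.MP_1a91b9_ntQD

open NumberField
open Pool.Agent.Lib.MP_1a91b9_ntDF (RamOK)
open Pool.Agent.Lib.MP_1a91b9_ntDZ (PropZ LNonzero z_two)

/-- There is no condition on the ramification for `L = F`. -/
private theorem U0_ramOK {K : Type} [Field K] [NumberField K] {F : Type} [Field F] [NumberField F]
    [Algebra K F] (V : WeierstrassCurve F) (q : ℕ) : RamOK K V q F := by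
  intro v w hvw
  exfalso
  have h0 : v.asIdeal ≤ w.asIdeal ^ 2 := fun x hx => hvw (Ideal.mem_map_of_mem _ hx)
  have h1 : v.asIdeal = w.asIdeal :=
    v.isMaximal.eq_of_le w.isPrime.ne_top (h0.trans (Ideal.pow_le_self two_ne_zero))
  rw [h1] at h0
  exact absurd (Ideal.pow_lt_self w.asIdeal w.ne_bot w.isPrime.ne_top 2 le_rfl)
    (not_lt_of_ge h0)

/-- The L-series of the curve over every subfield is not zero at `1`. -/
theorem lne_desc {K : Type} [Field K] [NumberField K] {E : WeierstrassCurve K} {F : Type} [Field F]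
    [NumberField F] [Algebra K F] (P : Type) [Field P] [NumberField P] [Algebra K P] [Algebra P F]
    [IsScalarTower K P F] (h : PropZ K (E.baseChange F)) : LNonzero (E.baseChange P) := by
  obtain ⟨-, -, S, hS⟩ := h
  obtain ⟨q, hq1, hq⟩ := Nat.exists_infinite_primes (S.sup id + 1)
  have hqS : q ∉ S := fun h => by
    have h1 : id q ≤ S.sup id := Finset.le_sup h
    rw [id] at h1
    omega
  have _ : Fact q.Prime := ⟨hq⟩
  have e1 : (E.baseChange P).baseChange F = E.baseChange F := by
    show (E.map (algebraMap K P)).map (algebraMap P F) = E.map (algebraMap K F)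
    rw [WeierstrassCurve.map_map, ← IsScalarTower.algebraMap_eq K P F]
  have e2 : (E.baseChange F).baseChange F = E.baseChange F := by
    show (E.map (algebraMap K F)).map (algebraMap F F) = E.map (algebraMap K F)
    rw [WeierstrassCurve.map_map]
    rfl
  obtain ⟨g, g1, g2, g3, -⟩ := hS q hqS 0 F F (by rw [pow_zero, Module.finrank_self])
    (U0_ramOK _ q) P (E.baseChange P) 1 (by rw [one_smul, e1, e2])
  exact ⟨g, g1, g2, g3⟩

/-- **The property `Z` over the subfields**, `p = 2`. -/
theorem z_desc (K : Type) [Field K] [NumberField K] (hK : Module.finrank ℚ K = 2)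
    (E : WeierstrassCurve K) (hE : E.a₁ = 0 ∧ E.a₃ = 0 ∧ E.a₆ = 0) (hΔ : E.Δ ≠ 0) (j D : ℤ)
    (hjD : (j, D) ∈ [(0, -3), (54000, -3), (-12288000, -3), (1728, -4), (287496, -4), (-3375, -7),
      (16581375, -7), (8000, -8), (-32768, -11), (-884736, -19), (-884736000, -43),
      (-147197952000, -67), (-262537412640768000, -163)])
    (hj : E.c₄ ^ 3 = j * E.Δ) (hD : ∃ s : K, s ^ 2 = D)
    (l : ℕ) (hl : l = 2 ∨ l = 4 ∧ ∃ i : K, i ^ 2 = -1)
    (F : Type) [Field F] [NumberField F] [Algebra K F]
    (P : Type) [Field P] [NumberField P] [Algebra K P] [Algebra P F] [IsScalarTower K P F]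
    (hP : IntermediateField.adjoin K {x : P | ∃ c : K, x ^ l = algebraMap K P c} = ⊤)
    (h : PropZ K (E.baseChange F)) : PropZ K (E.baseChange P) :=
  z_two K hK E hE hΔ j D hjD hj hD l hl P hP (lne_desc P h)

end Pool.Agent.Lib.MP_1a91b9_ntQD
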