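import Pool.Agent.Lib.MP_1a91b9_ntQD.U0
import Pool.Agent.Lib.MP_1a91b9_ntDZ.Z7

/-!
# MP_1a91b9_nt (cyclic quartic fields by the discriminant): one set of twists for a sequence of fields
-/

set_option autoImplicit false

namespace Pool.Agent.Lib.MP_1a91b9_ntQD

open NumberField
open Pool.Agent.Lib.MP_1a91b9_ntDF (tw Hyp)
open Pool.Agent.Lib.MP_1a91b9_ntDZ (PropZ Sep infZ)

/-- The elements of a separated set which are not separated from a given element are finitely many. -/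
private theorem U1_fin {K : Type} [Field K] {E : WeierstrassCurve K} (hb : E.a₄ ≠ 0) {F : Type}
    [Field F] [Algebra K F] {T : Set K} (hT : ∀ δ ∈ T, ∀ δ' ∈ T, δ ≠ δ' → Sep 2 E F δ δ') {a : K}
    (ha : a ≠ 0) (hT0 : (0 : K) ∉ T) :
    {δ ∈ T | ¬ Sep 2 E F a δ ∨ ¬ Sep 2 E F δ a}.Finite := by
  have he0 : ∀ e ∈ ({1, -1, E.a₄, -E.a₄} : Set K), e ≠ 0 := by
    intro e he
    simp only [Set.mem_insert_iff, Set.mem_singleton_iff] at he
    rcases he with rfl | rfl | rfl | rfl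
    · exact one_ne_zero
    · exact neg_ne_zero.2 one_ne_zero
    · exact hb
    · exact neg_ne_zero.2 hb
  have haF : algebraMap K F a ≠ 0 := (map_ne_zero _).2 ha
  have hδF : ∀ δ ∈ T, algebraMap K F δ ≠ 0 := fun δ hδ =>
    (map_ne_zero _).2 fun h => hT0 (h ▸ hδ)
  -- two elements whose quotient is a square are equal
  have key : ∀ δ ∈ T, ∀ δ' ∈ T, (∃ x : F, x ^ 2 * algebraMap K F δ' = algebraMap K F δ) → δ = δ' := by
    rintro δ hδ δ' hδ' ⟨x, hx⟩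
    by_contra hne
    refine (hT δ hδ δ' hδ' hne x).1 rfl 1 (Set.mem_insert _ _) ?_
    rw [one_mul]
    exact hx
  have h1 : (⋃ e ∈ ({1, -1, E.a₄, -E.a₄} : Set K),
      {δ ∈ T | ∃ x : F, x ^ 2 * algebraMap K F δ = algebraMap K F (e * a)}).Finite := by
    refine Set.Finite.biUnion (by simp) fun e he => Set.Subsingleton.finite ?_
    rintro δ ⟨hδ, x, hx⟩ δ' ⟨hδ', x', hx'⟩
    have hea : algebraMap K F (e * a) ≠ 0 := (map_ne_zero _).2 (mul_ne_zero (he0 e he) ha)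
    have hx0 : x ≠ 0 := by
      rintro rfl
      rw [zero_pow two_ne_zero, zero_mul] at hx
      exact hea hx.symm
    refine key δ hδ δ' hδ' ⟨x' / x, ?_⟩
    rw [div_pow, div_mul_eq_mul_div, hx', ← hx, mul_comm, mul_div_assoc,
      div_self (pow_ne_zero 2 hx0), mul_one]
  have h2 : (⋃ e ∈ ({1, -1, E.a₄, -E.a₄} : Set K),
      {δ ∈ T | ∃ x : F, x ^ 2 * algebraMap K F a = algebraMap K F (e * δ)}).Finite := by
    refine Set.Finite.biUnion (by simp) fun e he => Set.Subsingleton.finite ?_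
    rintro δ ⟨hδ, x, hx⟩ δ' ⟨hδ', x', hx'⟩
    have heF : algebraMap K F e ≠ 0 := (map_ne_zero _).2 (he0 e he)
    have hx0 : x' ≠ 0 := by
      rintro rfl
      rw [zero_pow two_ne_zero, zero_mul, map_mul] at hx'
      exact mul_ne_zero heF (hδF δ' hδ') hx'.symm
    refine key δ hδ δ' hδ' ⟨x / x', ?_⟩
    rw [map_mul] at hx hx'
    refine mul_left_cancel₀ heF ?_
    rw [← hx, div_pow, div_mul_eq_mul_div, mul_div_assoc', mul_left_comm, ← hx']
    field_simp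
  refine (h1.union h2).subset ?_
  rintro δ ⟨hδ, h⟩
  rcases h with h | h
  · unfold Pool.Agent.Lib.MP_1a91b9_ntDZ.Sep at h
    push Not at h
    obtain ⟨x, hx⟩ := h
    by_cases h3 : ∃ e ∈ ({1, -1, E.a₄, -E.a₄} : Set K), x ^ 2 * algebraMap K F δ = algebraMap K F (e * a)
    · obtain ⟨e, he, h4⟩ := h3
      exact Or.inl (Set.mem_biUnion he ⟨hδ, x, h4⟩)
    · exfalso
      obtain ⟨h5, -⟩ := hx fun _ e he h4 => h3 ⟨e, he, h4⟩
      exact absurd h5 (by norm_num)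
  · unfold Pool.Agent.Lib.MP_1a91b9_ntDZ.Sep at h
    push Not at h
    obtain ⟨x, hx⟩ := h
    by_cases h3 : ∃ e ∈ ({1, -1, E.a₄, -E.a₄} : Set K), x ^ 2 * algebraMap K F a = algebraMap K F (e * δ)
    · obtain ⟨e, he, h4⟩ := h3
      exact Or.inr (Set.mem_biUnion he ⟨hδ, x, h4⟩)
    · exfalso
      obtain ⟨h5, -⟩ := hx fun _ e he h4 => h3 ⟨e, he, h4⟩
      exact absurd h5 (by norm_num)

/-- Separated elements are separated over the subfields. -/
theorem sep_sub {K : Type} [Field K] {E : WeierstrassCurve K} {F F' : Type} [Field F] [Algebra K F]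
    [Field F'] [Algebra K F'] (φ : F →ₐ[K] F') {δ δ' : K} (h : Sep 2 E F' δ δ') : Sep 2 E F δ δ' := by
  intro x
  refine ⟨fun _ e he hx => (h (φ x)).1 rfl e he ?_, fun h => absurd h (by norm_num)⟩
  rw [← map_pow, ← φ.commutes, ← φ.commutes, ← map_mul, hx]

/-- The twist. -/
theorem tw2_hyp {K : Type} [Field K] {E : WeierstrassCurve K} (h1 : E.a₁ = 0)
    (h3 : E.a₃ = 0) (h6 : E.a₆ = 0) (hΔ : E.Δ ≠ 0) {j : ℤ} (hj : E.c₄ ^ 3 = j * E.Δ) {δ : K}
    (hδ : δ ≠ 0) : ((tw 2 E K δ).a₁ = 0 ∧ (tw 2 E K δ).a₃ = 0 ∧ (tw 2 E K δ).a₆ = 0) ∧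
      (tw 2 E K δ).Δ ≠ 0 ∧ (tw 2 E K δ).c₄ ^ 3 = j * (tw 2 E K δ).Δ := by
  have e0 : (tw 2 E K δ).a₃ = 0 := by
    show algebraMap K K (E.a₃ * δ ^ (3 / 2)) = 0
    rw [h3, zero_mul, map_zero]
  have e1 : tw 2 E K δ = ⟨0, E.a₂ * δ, 0, E.a₄ * δ ^ 2, 0⟩ := by
    refine WeierstrassCurve.ext rfl ?_ e0 ?_ rfl
    · show algebraMap K K (E.a₂ * δ ^ (2 / 2)) = E.a₂ * δ
      rw [show 2 / 2 = 1 from rfl, pow_one]
      rfl
    · show algebraMap K K (E.a₄ * δ ^ (4 / 2)) = E.a₄ * δ ^ 2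
      rfl
  have e2 : (tw 2 E K δ).Δ = δ ^ 6 * E.Δ := by
    rw [e1]
    unfold WeierstrassCurve.Δ WeierstrassCurve.b₂ WeierstrassCurve.b₄ WeierstrassCurve.b₆
      WeierstrassCurve.b₈
    rw [h1, h3, h6]
    ring
  have e3 : (tw 2 E K δ).c₄ = δ ^ 2 * E.c₄ := by
    rw [e1]
    unfold WeierstrassCurve.c₄ WeierstrassCurve.b₂ WeierstrassCurve.b₄
    rw [h1, h3]
    ring
  refine ⟨⟨rfl, e0, rfl⟩, ?_, ?_⟩
  · rw [e2]
    exact mul_ne_zero (pow_ne_zero 6 hδ) hΔ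
  · rw [e2, e3, mul_pow, hj]
    ring

/-- **One set of twists for a sequence of fields.** For every increasing sequence of fields `F k` which are generated
over `K` by square roots (or fourth roots, if `i` is in `K`) there are infinitely many elements `u m` of `K` such that
for all `k ≤ m` the twist `E^(u m)` has the property `Z` over `F k`, and the `u m`, `m ≥ k`, are separated over
`F k`. -/
theorem uni (K : Type) [Field K] [NumberField K] (hK : Module.finrank ℚ K = 2)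
    (E : WeierstrassCurve K) (hE : E.a₁ = 0 ∧ E.a₃ = 0 ∧ E.a₆ = 0) (hΔ : E.Δ ≠ 0) (j D : ℤ)
    (hjD : (j, D) ∈ [(0, -3), (54000, -3), (-12288000, -3), (1728, -4), (287496, -4), (-3375, -7),
      (16581375, -7), (8000, -8), (-32768, -11), (-884736, -19), (-884736000, -43),
      (-147197952000, -67), (-262537412640768000, -163)])
    (hj : E.c₄ ^ 3 = j * E.Δ) (hD : ∃ s : K, s ^ 2 = D) [IsPrincipalIdealRing (𝓞 K)]
    [Finite (𝓞 K)ˣ] (l : ℕ) (hl : l = 2 ∨ l = 4 ∧ ∃ i : K, i ^ 2 = -1)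
    (F : ℕ → IntermediateField K (AlgebraicClosure K)) [∀ k, NumberField (F k)] (hmono : Monotone F)
    (hF : ∀ k, IntermediateField.adjoin K {x : F k | ∃ c : K, x ^ l = algebraMap K (F k) c} = ⊤) :
    ∃ u : ℕ → K, Function.Injective u ∧ (∀ k, u k ≠ 0) ∧
      (∀ k m, k ≤ m → PropZ K ((tw 2 E K (u m)).baseChange (F k))) ∧
      ∀ k m m', k ≤ m → k ≤ m' → m ≠ m' → Sep 2 E (F k) (u m) (u m') := by
  classical
  obtain ⟨h1, h3, h6⟩ := hE
  have hb : E.a₄ ≠ 0 := by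
    intro h
    refine hΔ ?_
    simp only [WeierstrassCurve.Δ, WeierstrassCurve.b₂, WeierstrassCurve.b₄, WeierstrassCurve.b₆,
      WeierstrassCurve.b₈, h, h1, h3, h6]
    ring
  have hT : ∀ m, ∃ T : Set K, T.Infinite ∧ 0 ∉ T ∧
      (∀ δ ∈ T, ∀ δ' ∈ T, δ ≠ δ' → Sep 2 E (F m) δ δ') ∧
      ∀ δ ∈ T, PropZ K ((tw 2 E K δ).baseChange (F m)) := fun m =>
    infZ 2 K E (F m) ⟨hK, hΔ, h1, h6, Or.inl ⟨rfl, h3, j, D, hjD, hj, hD⟩, l,
      hl.imp id fun h => ⟨rfl, h⟩, hF m⟩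
  choose T hTi hT0 hTs hTz using hT
  obtain ⟨f, hf1, hf2⟩ := exists_seq_of_forall_finset_exists (α := ℕ × K) (fun y => y.2 ∈ T y.1)
    (fun x y => x.1 < y.1 ∧ Sep 2 E (F y.1) x.2 y.2 ∧ Sep 2 E (F y.1) y.2 x.2) (by
      intro s hs
      obtain ⟨M, hM⟩ : ∃ M, ∀ x ∈ s, x.1 < M := by
        refine ⟨s.sup Prod.fst + 1, fun x hx => ?_⟩
        have h : x.1 ≤ s.sup Prod.fst := Finset.le_sup (f := Prod.fst) hx
        omega
      have hbad : (⋃ x ∈ s, {δ ∈ T M | ¬ Sep 2 E (F M) x.2 δ ∨ ¬ Sep 2 E (F M) δ x.2}).Finite :=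
        s.finite_toSet.biUnion fun x hx => U1_fin hb (hTs M)
          (fun h => hT0 x.1 (h ▸ hs x hx)) (hT0 M)
      obtain ⟨δ, hδ1, hδ2⟩ := ((hTi M).sdiff hbad).nonempty
      refine ⟨(M, δ), hδ1, fun x hx => ⟨hM x hx, ?_⟩⟩
      by_contra hne
      refine hδ2 (Set.mem_biUnion hx ⟨hδ1, ?_⟩)
      by_contra h4
      rw [not_or, not_not, not_not] at h4
      exact hne h4)
  have hidx : StrictMono fun n => (f n).1 := fun m n h => (hf2 m n h).1
  have hle : ∀ n, n ≤ (f n).1 := fun n => hidx.le_apply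
  have hu0 : ∀ n, (f n).2 ≠ 0 := fun n h => hT0 _ (h ▸ hf1 n)
  have hsep : ∀ k m m', k ≤ m → k ≤ m' → m ≠ m' → Sep 2 E (F k) (f m).2 (f m').2 := by
    intro k m m' h1 h2 hne
    rcases lt_or_gt_of_ne hne with h | h
    · exact sep_sub (IntermediateField.inclusion (hmono (h2.trans (hle m')))) (hf2 m m' h).2.1
    · exact sep_sub (IntermediateField.inclusion (hmono (h1.trans (hle m)))) (hf2 m' m h).2.2
  refine ⟨fun n => (f n).2, fun m m' h => ?_, hu0, fun k m hkm => ?_, hsep⟩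
  · by_contra hne
    have h4 := (hsep 0 m m' (Nat.zero_le _) (Nat.zero_le _) hne 1).1 rfl 1 (Set.mem_insert _ _)
    refine h4 ?_
    have h5 : (f m).2 = (f m').2 := h
    rw [h5, one_pow, one_mul, one_mul]
  · obtain ⟨e1, e2, e3⟩ := tw2_hyp h1 h3 h6 hΔ hj (hu0 m)
    let _ : Algebra (F k) (F (f m).1) :=
      (IntermediateField.inclusion (hmono (hkm.trans (hle m)))).toRingHom.toAlgebra
    have _ : IsScalarTower K (F k) (F (f m).1) := IsScalarTower.of_algebraMap_eq fun _ => rfl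
    exact z_desc K hK (tw 2 E K (f m).2) e1 e2 j D hjD e3 hD l hl (F (f m).1) (F k) (hF k)
      (hTz _ _ (hf1 m))

end Pool.Agent.Lib.MP_1a91b9_ntQD
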